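import Pool.Agent.Helper40.W4.Spec

set_option autoImplicit false

namespace Pool.Agent.Helper89.W4

open Polynomial Module IntermediateField Pool.Agent.Helper40.W4

/-- Complex numbers with real and imaginary part in `S`. -/
def EE (S : Subfield ℝ) : Subfield ℂ where
  carrier := {z | z.re ∈ S ∧ z.im ∈ S}
  zero_mem' := ⟨by simp, by simp⟩
  one_mem' := ⟨by simp, by simp⟩
  add_mem' := fun {a b} ha hb =>
    ⟨by simpa using S.add_mem ha.1 hb.1, by simpa using S.add_mem ha.2 hb.2⟩
  mul_mem' := fun {a b} ha hb => by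
    refine ⟨?_, ?_⟩
    · rw [Complex.mul_re]
      exact S.sub_mem (S.mul_mem ha.1 hb.1) (S.mul_mem ha.2 hb.2)
    · rw [Complex.mul_im]
      exact S.add_mem (S.mul_mem ha.1 hb.2) (S.mul_mem ha.2 hb.1)
  neg_mem' := fun {a} ha => ⟨by simpa using S.neg_mem ha.1, by simpa using S.neg_mem ha.2⟩
  inv_mem' := fun a ha => by
    have hn : Complex.normSq a ∈ S := by
      rw [Complex.normSq_apply]
      exact S.add_mem (S.mul_mem ha.1 ha.1) (S.mul_mem ha.2 ha.2)
    refine ⟨?_, ?_⟩
    · rw [Complex.inv_re]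
      exact S.div_mem ha.1 hn
    · rw [Complex.inv_im]
      exact S.div_mem (S.neg_mem ha.2) hn

lemma mem_EE {S : Subfield ℝ} {z : ℂ} : z ∈ EE S ↔ z.re ∈ S ∧ z.im ∈ S := Iff.rfl

lemma I_mem_EE (S : Subfield ℝ) : Complex.I ∈ EE S := by simp [mem_EE]

lemma coe_mem_EE {S : Subfield ℝ} {x : ℝ} : (x : ℂ) ∈ EE S ↔ x ∈ S := by simp [mem_EE]

lemma EE_mono {S S' : Subfield ℝ} (h : S ≤ S') : EE S ≤ EE S' := fun _ hz => ⟨h hz.1, h hz.2⟩

lemma EE_le {S : Subfield ℝ} {F : Subfield ℂ} (hI : Complex.I ∈ F)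
    (h : S ≤ F.comap Complex.ofRealHom) : EE S ≤ F := by
  intro z hz
  rw [← Complex.re_add_im z]
  exact F.add_mem (h hz.1) (F.mul_mem (h hz.2) hI)

lemma EE_countable (S : Subfield ℝ) [Countable S] : Countable (EE S) := by
  have : Function.Injective (fun z : EE S => ((⟨z.1.re, z.2.1⟩, ⟨z.1.im, z.2.2⟩) : S × S)) := by
    intro z w h
    simp only [Prod.mk.injEq, Subtype.mk.injEq] at h
    exact Subtype.ext (Complex.ext h.1 h.2)
  exact this.countable

lemma closure_countable {K : Type} [Field K] (s : Set K) (h : s.Countable) :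
    Countable (Subfield.closure s) := by
  rw [← Cardinal.mk_le_aleph0_iff]
  refine (Subfield.cardinalMk_closure_le_max s).trans ?_
  simpa using h

/-- There are real numbers in each interval that are transcendental over a countable subfield
of `ℂ`. -/
lemma exists_real_transcendental (E : Subfield ℂ) [Countable E] {u v : ℝ} (huv : u < v) :
    ∃ x : ℝ, u < x ∧ x < v ∧ Transcendental E (x : ℂ) := by
  by_contra hcon
  push Not at hcon
  have h1 : Set.Ioo u v ⊆ (fun x : ℝ => (x : ℂ)) ⁻¹' {z : ℂ | IsAlgebraic E z} := by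
    intro x hx
    have := hcon x hx.1 hx.2
    exact not_not.1 this
  have h2 : ((fun x : ℝ => (x : ℂ)) ⁻¹' {z : ℂ | IsAlgebraic E z}).Countable :=
    (Algebraic.countable E ℂ).preimage Complex.ofReal_injective
  have h3 := h2.mono h1
  have h4 := Cardinal.mk_Ioo_real huv
  have h5 : ¬ (Set.Ioo u v).Countable := by
    rw [← Cardinal.le_aleph0_iff_set_countable, h4, not_le]
    exact Cardinal.aleph0_lt_continuum
  exact h5 h3

end Pool.Agent.Helper89.W4
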