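import Pool.Agent.Helper89.W4.T1

set_option autoImplicit false

namespace Pool.Agent.Helper89.W4

open Polynomial Module IntermediateField Pool.Agent.Helper40.W4

/-- The invariant for a subfield of `ℂ`. -/
def PE (a c : ℝ) (E : Subfield ℂ) : Prop :=
  ∃ (ha : (a : ℂ) ∈ E) (hc : (c : ℂ) ∈ E), GE E ⟨a, ha⟩ ⟨c, hc⟩

lemma adjoin_preimage_eq_top {F L : Type} [Field F] [Field L] [Algebra F L] (T : Set L)
    (T' : Set (IntermediateField.adjoin F T)) (hT : Subtype.val '' T' = T) :
    IntermediateField.adjoin F T' = ⊤ := by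
  apply IntermediateField.lift_injective
  rw [IntermediateField.lift_adjoin, IntermediateField.lift_top, hT]

lemma transcendental_sub {F L : Type} [Field F] [Field L] [Algebra F L] (K : IntermediateField F L)
    (x : K) (h : Transcendental F (x : L)) : Transcendental F x := by
  intro hx
  exact h (hx.algebraMap (A := L))

lemma PE_rat (hG : S_GRAT) {a c : ℝ} {E : Subfield ℂ} (h : PE a c E) (w : ℂ)
    (hw : Transcendental E w) : PE a c (IntermediateField.adjoin E {w}).toSubfield := by
  obtain ⟨ha, hc, h⟩ := h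
  have hmem : ∀ x ∈ E, x ∈ (IntermediateField.adjoin E {w}).toSubfield := fun x hx =>
    (IntermediateField.adjoin E {w}).algebraMap_mem ⟨x, hx⟩
  refine ⟨hmem _ ha, hmem _ hc, ?_⟩
  have hw' : w ∈ IntermediateField.adjoin E {w} := IntermediateField.mem_adjoin_simple_self E w
  have := hG E (IntermediateField.adjoin E {w}) _ _ h ⟨w, hw'⟩ (transcendental_sub _ _ hw)
    (adjoin_preimage_eq_top _ _ (by simp))
  exact this

lemma PE_con (hG : S_GCON) {a c : ℝ} {E : Subfield ℂ} (h : PE a c E) (α β x y : ℂ)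
    (hα : α ∈ E) (hβ : β ∈ E) (hα0 : α ≠ 0) (hβ0 : β ≠ 0)
    (hy : Transcendental E y) (hxy : x ^ 2 = α * y ^ 2 + β) :
    PE a c (IntermediateField.adjoin E {x, y}).toSubfield := by
  obtain ⟨ha, hc, h⟩ := h
  have hmem : ∀ z ∈ E, z ∈ (IntermediateField.adjoin E {x, y}).toSubfield := fun z hz =>
    (IntermediateField.adjoin E {x, y}).algebraMap_mem ⟨z, hz⟩
  refine ⟨hmem _ ha, hmem _ hc, ?_⟩
  have hx' : x ∈ IntermediateField.adjoin E {x, y} :=
    IntermediateField.subset_adjoin E _ (by simp)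
  have hy' : y ∈ IntermediateField.adjoin E {x, y} :=
    IntermediateField.subset_adjoin E _ (by simp)
  have := hG E (IntermediateField.adjoin E {x, y}) _ _ h ⟨α, hα⟩ ⟨β, hβ⟩ ⟨x, hx'⟩ ⟨y, hy'⟩
    (by simpa [Subtype.ext_iff] using hα0) (by simpa [Subtype.ext_iff] using hβ0)
    (transcendental_sub _ _ hy) (by
      apply Subtype.ext
      exact hxy)
    (adjoin_preimage_eq_top _ _ (by simp [Set.image_pair]))
  exact this

lemma PE_odd (hG : S_GODD) {a c : ℝ} {E : Subfield ℂ} (h : PE a c E) (θ : ℂ)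
    (hθ : IsIntegral E θ) (hodd : Odd (minpoly E θ).natDegree) :
    PE a c (IntermediateField.adjoin E {θ}).toSubfield := by
  obtain ⟨ha, hc, h⟩ := h
  have hmem : ∀ x ∈ E, x ∈ (IntermediateField.adjoin E {θ}).toSubfield := fun x hx =>
    (IntermediateField.adjoin E {θ}).algebraMap_mem ⟨x, hx⟩
  refine ⟨hmem _ ha, hmem _ hc, ?_⟩
  have := hG E (IntermediateField.adjoin E {θ}) _ _ h
    (IntermediateField.adjoin.finiteDimensional hθ) (by
      rw [IntermediateField.adjoin.finrank hθ]
      exact hodd)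
  exact this

section QA

open QuadraticAlgebra

variable {E : Type} [Field E] {c : E}

lemma omega_sq : (omega : QuadraticAlgebra E c 0) ^ 2 = algebraMap E _ c := by
  ext <;> simp [pow_two, omega]

/-- The conjugation. -/
noncomputable def starHom : QuadraticAlgebra E c 0 →ₐ[E] QuadraticAlgebra E c 0 where
  toFun z := star z
  map_one' := star_one _
  map_mul' := fun x y => by rw [star_mul, mul_comm]
  map_zero' := star_zero _
  map_add' := star_add
  commutes' := fun r => by ext <;> simp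

/-- The conjugation. -/
noncomputable def starEquiv : QuadraticAlgebra E c 0 ≃ₐ[E] QuadraticAlgebra E c 0 :=
  AlgEquiv.ofAlgHom starHom starHom (AlgHom.ext fun z => star_star z)
    (AlgHom.ext fun z => star_star z)

lemma starEquiv_omega : starEquiv (omega : QuadraticAlgebra E c 0) = -omega := by
  show star (omega : QuadraticAlgebra E c 0) = -omega
  ext <;> simp [omega]

lemma eq_add_omega (z : QuadraticAlgebra E c 0) :
    z = algebraMap E _ z.re + algebraMap E _ z.im * omega := by
  ext <;> simp [omega]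

end QA

/-- The field `E(√c)` for a nonsquare `c`. -/
lemma exists_good {E : Type} [Field E] [CharZero E] {a c : E} (h : GE E a c) :
    ∃ (k : Type) (_ : Field k) (_ : CharZero k) (_ : Algebra E k) (s : k) (σ : k ≃+* k),
      s ^ 2 = algebraMap E k c ∧ (∀ x : E, σ (algebraMap E k x) = algebraMap E k x) ∧
      Good k (algebraMap E k a) s σ := by
  obtain ⟨hc, h⟩ := h
  have hF : Fact (∀ r : E, r ^ 2 ≠ c + 0 * r) := ⟨fun r hr => hc ⟨r, by
    rw [← pow_two, hr]; ring⟩⟩
  refine ⟨QuadraticAlgebra E c 0, inferInstance, inferInstance, inferInstance,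
    QuadraticAlgebra.omega, (starEquiv (E := E) (c := c)).toRingEquiv, omega_sq, ?_, ?_⟩
  · intro x
    exact (starEquiv (E := E) (c := c)).commutes x
  · refine h (QuadraticAlgebra E c 0) QuadraticAlgebra.omega omega_sq ?_ starEquiv
      starEquiv_omega
    rw [eq_top_iff]
    intro z _
    rw [eq_add_omega z]
    exact add_mem (IntermediateField.algebraMap_mem _ _)
      (mul_mem (IntermediateField.algebraMap_mem _ _)
        (IntermediateField.subset_adjoin _ _ (Set.mem_singleton _)))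

lemma PE_nsq {a c : ℝ} {E : Subfield ℂ} (h : PE a c E) : ∀ x ∈ E, x ^ 2 ≠ (a : ℂ) := by
  obtain ⟨ha, hc, h⟩ := h
  obtain ⟨k, _, _, _, s, σ, hs, hσ, hg⟩ := exists_good h
  intro x hx hxa
  apply hg.nsq
  refine ⟨algebraMap E k ⟨x, hx⟩, ?_⟩
  rw [← map_mul]
  congr 1
  apply Subtype.ext
  simpa [pow_two] using hxa.symm

lemma PE_pt (hP : S_PT) {a c : ℝ} {E : Subfield ℂ} (h : PE a c E) : ∀ x ∈ E, ∀ y ∈ E,
    y ^ 2 ≠ (a : ℂ) * x ^ 6 + x ^ 5 + c := by
  obtain ⟨ha, hc, h⟩ := h
  obtain ⟨k, _, _, _, s, σ, hs, hσ, hg⟩ := exists_good h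
  intro x hx y hy hxy
  apply hP k _ _ _ hg (algebraMap E k ⟨x, hx⟩) (algebraMap E k ⟨y, hy⟩) (hσ _) (hσ _)
  rw [hs, ← map_pow, ← map_pow, ← map_pow, ← map_mul, ← map_add, ← map_add]
  congr 1
  apply Subtype.ext
  simpa using hxy

end Pool.Agent.Helper89.W4
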