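import Pool.Agent.Helper89.W4.T2

set_option autoImplicit false

namespace Pool.Agent.Helper89.W4

open Polynomial Module IntermediateField Pool.Agent.Helper40.W4

section Exchange

open scoped IntermediateField.algebraAdjoinAdjoin

variable {F L : Type} [Field F] [Field L] [Algebra F L]

lemma transcendental_adjoin_iff (S : Set L) (v : L) :
    Transcendental (Algebra.adjoin F S) v ↔ Transcendental (IntermediateField.adjoin F S) v :=
  not_congr (IsFractionRing.isAlgebraic_iff (Algebra.adjoin F S) (IntermediateField.adjoin F S) L)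

lemma exchange {u v : L} (hu : Transcendental F u)
    (hv : Transcendental (IntermediateField.adjoin F {u}) v) :
    Transcendental F v ∧ Transcendental (IntermediateField.adjoin F {v}) u := by
  have hne : v ∉ ({u} : Set L) := by
    rintro h
    rw [Set.mem_singleton_iff] at h
    subst h
    exact hv (isAlgebraic_algebraMap
      (⟨v, IntermediateField.mem_adjoin_simple_self F v⟩ : IntermediateField.adjoin F {v}))
  have h1 : AlgebraicIndepOn F (id : L → L) {u} := by
    rw [AlgebraicIndepOn, algebraicIndependent_unique_type_iff]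
    exact hu
  have h2 : AlgebraicIndepOn F (id : L → L) (insert v {u}) := by
    rw [AlgebraicIndepOn.insert_iff hne]
    refine ⟨h1, ?_⟩
    rw [Set.image_id, transcendental_adjoin_iff]
    exact hv
  rw [Set.pair_comm] at h2
  have hne' : u ∉ ({v} : Set L) := by
    intro h
    exact hne (by rw [Set.mem_singleton_iff] at h ⊢; exact h.symm)
  rw [AlgebraicIndepOn.insert_iff hne', Set.image_id, transcendental_adjoin_iff] at h2
  refine ⟨?_, h2.2⟩
  have h3 := h2.1
  rw [AlgebraicIndepOn, algebraicIndependent_unique_type_iff] at h3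
  exact h3

end Exchange

lemma EE_closure_eq (S : Subfield ℝ) (T : Set ℝ) (U : Set ℂ)
    (h1 : ∀ x ∈ T, (x : ℂ) ∈ IntermediateField.adjoin (EE S) U)
    (h2 : ∀ w ∈ U, w ∈ EE (Subfield.closure (S ∪ T))) :
    EE (Subfield.closure (S ∪ T)) = (IntermediateField.adjoin (EE S) U).toSubfield := by
  have hmem : ∀ x ∈ EE S, x ∈ IntermediateField.adjoin (EE S) U := fun x hx =>
    (IntermediateField.adjoin (EE S) U).algebraMap_mem ⟨x, hx⟩
  apply le_antisymm
  · apply EE_le
    · exact hmem _ (I_mem_EE S)
    · rw [Subfield.closure_le]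
      rintro x (hx | hx)
      · exact hmem _ (coe_mem_EE.2 hx)
      · exact h1 x hx
  · have : (IntermediateField.adjoin (EE S) U).toSubfield =
        Subfield.closure (Set.range (algebraMap (EE S) ℂ) ∪ U) := rfl
    rw [this, Subfield.closure_le]
    rintro x (⟨y, rfl⟩ | hx)
    · exact EE_mono (Subfield.subset_closure.trans' Set.subset_union_left) y.2
    · exact h2 x hx

/-- Odd real polynomials have roots. -/
lemma real_root (p : ℝ[X]) (hp : Odd p.natDegree) : ∃ x, p.IsRoot x := by
  have hdeg : 0 < p.degree := natDegree_pos_iff_degree_pos.1 hp.pos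
  wlog hl : 0 ≤ p.leadingCoeff with H
  · obtain ⟨x, hx⟩ := H (-p) (by simpa using hp) (by simpa using hdeg)
      (by simp only [leadingCoeff_neg]; linarith)
    exact ⟨x, by simpa [IsRoot] using hx⟩
  have h1 := p.tendsto_atTop_of_leadingCoeff_nonneg hdeg hl
  have hnc : (p.comp (-X)).natDegree = p.natDegree := by
    rw [natDegree_comp]; simp
  have hlc : (p.comp (-X)).leadingCoeff = - p.leadingCoeff := by
    rw [leadingCoeff_comp (by simp)]
    simp [hp.neg_one_pow]
  have h2 := (p.comp (-X)).tendsto_atBot_of_leadingCoeff_nonpos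
    (natDegree_pos_iff_degree_pos.1 (by rw [hnc]; exact hp.pos)) (by rw [hlc]; linarith)
  obtain ⟨x, hx⟩ := (h1.eventually (Filter.eventually_ge_atTop 0)).exists
  obtain ⟨y, hy⟩ := (h2.eventually (Filter.eventually_le_atBot 0)).exists
  rw [eval_comp] at hy
  simp only [eval_neg, eval_X] at hy
  have := mem_range_of_exists_le_of_exists_ge p.continuous ⟨-y, hy⟩ ⟨x, hx⟩
  obtain ⟨z, hz⟩ := this
  exact ⟨z, hz⟩

lemma exists_odd_factor {K : Type} [Field K] : ∀ (n : ℕ) (p : K[X]), p.natDegree ≤ n →
    Odd p.natDegree → ∃ r, Irreducible r ∧ Odd r.natDegree ∧ r ∣ p := by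
  intro n
  induction n with
  | zero => 
    intro p h1 h2
    rw [Nat.le_zero.1 h1] at h2
    exact absurd h2 (by decide)
  | succ n ih =>
    intro p hpn hp
    by_cases hirr : Irreducible p
    · exact ⟨p, hirr, hp, dvd_rfl⟩
    · have hp0 : p ≠ 0 := by
        rintro rfl
        simp at hp
      have hnu : ¬ IsUnit p := by
        intro hu
        rw [natDegree_eq_zero_of_isUnit hu] at hp
        exact absurd hp (by decide)
      rw [irreducible_iff] at hirr
      push Not at hirr
      obtain ⟨f, g, hfg, hf, hg⟩ := hirr hnu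
      have hf0 : f ≠ 0 := by rintro rfl; exact hp0 (by rw [hfg, zero_mul])
      have hg0 : g ≠ 0 := by rintro rfl; exact hp0 (by rw [hfg, mul_zero])
      have hdeg : p.natDegree = f.natDegree + g.natDegree := by rw [hfg, natDegree_mul hf0 hg0]
      have hf1 : 0 < f.natDegree := by
        rw [Nat.pos_iff_ne_zero]
        intro h
        exact hf (isUnit_iff_degree_eq_zero.2 (by rw [degree_eq_natDegree hf0, h]; rfl))
      have hg1 : 0 < g.natDegree := by
        rw [Nat.pos_iff_ne_zero]
        intro h
        exact hg (isUnit_iff_degree_eq_zero.2 (by rw [degree_eq_natDegree hg0, h]; rfl))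
      rcases Nat.even_or_odd f.natDegree with he | ho
      · have : Odd g.natDegree := by
          rw [hdeg] at hp
          exact (Nat.odd_add'.1 hp).2 he
        obtain ⟨r, h1, h2, h3⟩ := ih g (by omega) this
        exact ⟨r, h1, h2, h3.trans (by rw [hfg]; exact dvd_mul_left _ _)⟩
      · obtain ⟨r, h1, h2, h3⟩ := ih f (by omega) ho
        exact ⟨r, h1, h2, h3.trans (by rw [hfg]; exact dvd_mul_right _ _)⟩

end Pool.Agent.Helper89.W4
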