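import Pool.Agent.Helper89.W4.T3

set_option autoImplicit false

namespace Pool.Agent.Helper89.W4

open Polynomial Module IntermediateField Pool.Agent.Helper40.W4

/-- The property of the subfields of the chain. -/
def PS (a c : ℝ) (S : Subfield ℝ) : Prop := Countable S ∧ PE a c (EE S)

lemma closure_union_countable (S : Subfield ℝ) (h : Countable S) (T : Set ℝ) (hT : T.Countable) :
    Countable (Subfield.closure ((S : Set ℝ) ∪ T)) := by
  apply closure_countable
  exact Set.Countable.union (Set.countable_coe_iff.1 h) hT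

lemma step_sq (hG : S_GRAT) {a c : ℝ} {S : Subfield ℝ} (h : PS a c S) {e : ℝ} (he : e ∈ S)
    (he0 : 0 < e) : ∃ S' : Subfield ℝ, S ≤ S' ∧ PS a c S' ∧ ∃ x ∈ S', ∃ y ∈ S', e = x ^ 2 + y ^ 2 := by
  obtain ⟨hc, hP⟩ := h
  have := hc
  have := EE_countable S
  obtain ⟨x, hx0, hx1, hx⟩ := exists_real_transcendental (EE S) (Real.sqrt_pos.2 he0)
  have hxe : x ^ 2 < e := by
    have := Real.sq_sqrt he0.le
    nlinarith [Real.sqrt_nonneg e]
  set y := Real.sqrt (e - x ^ 2) with hy
  have hy2 : x ^ 2 + y ^ 2 = e := by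
    rw [hy, Real.sq_sqrt (by linarith)]; ring
  set w : ℂ := x + y * Complex.I with hw
  have hwc : w * (x - y * Complex.I) = e := by
    have : w * (x - y * Complex.I) = ((x ^ 2 + y ^ 2 : ℝ) : ℂ) := by
      rw [hw]; push_cast
      linear_combination (-(y : ℂ) ^ 2) * Complex.I_sq
    rw [this, hy2]
  have hw0 : w ≠ 0 := by
    rintro h0
    rw [h0, zero_mul] at hwc
    exact he0.ne (by exact_mod_cast hwc)
  have heE : (e : ℂ) ∈ EE S := coe_mem_EE.2 he
  have hconj : (x - y * Complex.I : ℂ) = e / w := by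
    rw [eq_div_iff hw0, mul_comm]; exact hwc
  have hxw : (x : ℂ) = (w + e / w) / 2 := by rw [← hconj, hw]; ring
  have hyw : (y : ℂ) = (w - e / w) / (2 * Complex.I) := by
    rw [← hconj, hw]
    field_simp
    ring
  have hwt : Transcendental (EE S) w := by
    intro hwa
    apply hx
    have he' : IsAlgebraic (EE S) (e : ℂ) := isAlgebraic_algebraMap (⟨e, heE⟩ : EE S)
    have h2 : IsAlgebraic (EE S) (2 : ℂ) := by
      exact_mod_cast isAlgebraic_algebraMap (2 : EE S)
    rw [hxw]
    exact (hwa.add (he'.mul hwa.inv)).mul h2.inv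
  have heq := EE_closure_eq S {x, y} {w} (by
      have hw' : w ∈ IntermediateField.adjoin (EE S) {w} :=
        IntermediateField.mem_adjoin_simple_self _ w
      have hmem : ∀ z ∈ EE S, z ∈ IntermediateField.adjoin (EE S) {w} := fun z hz =>
        (IntermediateField.adjoin (EE S) {w}).algebraMap_mem ⟨z, hz⟩
      have h2 : (2 : ℂ) ∈ IntermediateField.adjoin (EE S) {w} := ofNat_mem _ 2
      rintro z (rfl | hz)
      · rw [hxw]
        exact div_mem (add_mem hw' (div_mem (hmem _ heE) hw')) h2
      · rw [Set.mem_singleton_iff.1 hz, hyw]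
        exact div_mem (sub_mem hw' (div_mem (hmem _ heE) hw')) (mul_mem h2 (hmem _ (I_mem_EE S))))
    (by
      rintro z hz
      rw [Set.mem_singleton_iff.1 hz, hw, mem_EE]
      refine ⟨?_, ?_⟩
      · simp only [Complex.add_re, Complex.ofReal_re, Complex.mul_re, Complex.I_re, mul_zero,
          Complex.ofReal_im, Complex.I_im, mul_one, sub_self, add_zero]
        exact Subfield.subset_closure (Or.inr (by simp))
      · simp only [Complex.add_im, Complex.ofReal_im, Complex.mul_im, Complex.ofReal_re,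
          Complex.I_im, mul_one, Complex.I_re, mul_zero, add_zero, zero_add]
        exact Subfield.subset_closure (Or.inr (by simp)))
  refine ⟨Subfield.closure (S ∪ {x, y}), fun z hz => Subfield.subset_closure (Or.inl hz),
    ⟨closure_union_countable _ hc _ (Set.toFinite _).countable, ?_⟩, x,
    Subfield.subset_closure (Or.inr (by simp)), y, Subfield.subset_closure (Or.inr (by simp)),
    hy2.symm⟩
  rw [heq]
  exact PE_rat hG hP w hwt

/-- The inclusion of `S` in `EE S`. -/
def inc (S : Subfield ℝ) : S →+* EE S where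
  toFun x := ⟨((x : ℝ) : ℂ), coe_mem_EE.2 x.2⟩
  map_one' := by ext; simp
  map_mul' x y := by ext; simp
  map_zero' := by ext; simp
  map_add' x y := by ext; simp

/-- Conjugation. -/
def cj (S : Subfield ℝ) : EE S →+* EE S where
  toFun x := ⟨(starRingEnd ℂ) x, by
    have := x.2
    rw [mem_EE] at this ⊢
    exact ⟨by simpa using this.1, by simpa using this.2⟩⟩
  map_one' := by ext; simp
  map_mul' x y := by ext; simp
  map_zero' := by ext; simp
  map_add' x y := by ext; simp

lemma minpoly_EE (S : Subfield ℝ) (θ : ℝ) (hθ : IsIntegral S θ) :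
    IsIntegral (EE S) (θ : ℂ) ∧
      (minpoly (EE S) (θ : ℂ)).natDegree = (minpoly S θ).natDegree := by
  have key : ∀ p : S[X], aeval (θ : ℂ) (p.map (inc S)) = ((aeval θ p : ℝ) : ℂ) := by
    intro p
    rw [aeval_def, eval₂_map, aeval_def]
    have : (algebraMap (EE S) ℂ).comp (inc S) = Complex.ofRealHom.comp (algebraMap S ℝ) := rfl
    rw [this]
    exact (hom_eval₂ p (algebraMap S ℝ) Complex.ofRealHom θ).symm
  have h0 : aeval (θ : ℂ) ((minpoly S θ).map (inc S)) = 0 := by
    rw [key, minpoly.aeval]; simp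
  have hm : ((minpoly S θ).map (inc S)).Monic := (minpoly.monic hθ).map _
  have hint : IsIntegral (EE S) (θ : ℂ) := ⟨_, hm, by rw [← aeval_def]; exact h0⟩
  refine ⟨hint, ?_⟩
  -- the minimal polynomial is invariant under conjugation
  set m := minpoly (EE S) (θ : ℂ) with hmdef
  have hmm : m.Monic := minpoly.monic hint
  have hcj : aeval (θ : ℂ) (m.map (cj S)) = 0 := by
    rw [aeval_def, eval₂_map]
    have : (algebraMap (EE S) ℂ).comp (cj S) = (starRingEnd ℂ).comp (algebraMap (EE S) ℂ) := rfl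
    have h2 : (θ : ℂ) = (starRingEnd ℂ) θ := (Complex.conj_ofReal θ).symm
    rw [this, h2, ← hom_eval₂, ← aeval_def, hmdef, minpoly.aeval, map_zero]
  have hinv : m.map (cj S) = m := by
    apply minpoly.unique (EE S) (θ : ℂ) (hmm.map _) hcj
    intro q hq hq0
    rw [(hmm).degree_map]
    exact minpoly.min (EE S) (θ : ℂ) hq hq0
  have hco : ∀ n, ∃ z : S, inc S z = m.coeff n := by
    intro n
    have h1 : (cj S) (m.coeff n) = m.coeff n := by
      conv_rhs => rw [← hinv]
      rw [coeff_map]
    have h2 : ((m.coeff n : ℂ)).im = 0 := by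
      have := congrArg (fun z : EE S => ((z : ℂ)).im) h1
      simp only [cj, RingHom.coe_mk, MonoidHom.coe_mk, OneHom.coe_mk, Complex.conj_im] at this
      linarith
    refine ⟨⟨((m.coeff n : ℂ)).re, (m.coeff n).2.1⟩, ?_⟩
    apply Subtype.ext
    apply Complex.ext
    · simp [inc]
    · simp [inc, h2]
  have hl : m ∈ lifts (inc S) := by
    rw [lifts_iff_coeff_lifts]
    intro n
    obtain ⟨z, hz⟩ := hco n
    exact ⟨z, hz⟩
  obtain ⟨m0, hm0⟩ := (mem_lifts _).1 hl
  have hinj : Function.Injective (inc S) := (inc S).injective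
  have hm0m : m0.Monic := by
    rw [hinj.monic_map_iff, hm0]; exact hmm
  have hm0r : aeval θ m0 = 0 := by
    have := key m0
    rw [hm0, hmdef, minpoly.aeval] at this
    exact_mod_cast this.symm
  have e1 : m.natDegree = m0.natDegree := by rw [← hm0, natDegree_map]
  apply le_antisymm
  · have := minpoly.min (EE S) (θ : ℂ) hm h0
    have := natDegree_le_natDegree this
    rwa [natDegree_map] at this
  · rw [e1]
    exact natDegree_le_natDegree (minpoly.min S θ hm0m hm0r)

lemma step_odd (hG : S_GODD) {a c : ℝ} {S : Subfield ℝ} (h : PS a c S) {p : ℝ[X]}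
    (hp : ∀ n, p.coeff n ∈ S) (hodd : Odd p.natDegree) :
    ∃ S' : Subfield ℝ, S ≤ S' ∧ PS a c S' ∧ ∃ x ∈ S', p.IsRoot x := by
  obtain ⟨hc, hP⟩ := h
  have hl : p ∈ lifts (algebraMap S ℝ) := by
    rw [lifts_iff_coeff_lifts]
    intro n
    exact ⟨⟨_, hp n⟩, rfl⟩
  obtain ⟨q, hq⟩ := (mem_lifts _).1 hl
  have hqd : Odd q.natDegree := by
    rw [← hq, natDegree_map] at hodd
    exact hodd
  obtain ⟨r, hr1, hr2, hr3⟩ := exists_odd_factor q.natDegree q le_rfl hqd
  obtain ⟨θ, hθ⟩ := real_root (r.map (algebraMap S ℝ)) (by rw [natDegree_map]; exact hr2)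
  have hr0 : aeval θ r = 0 := by
    rw [IsRoot, eval_map, ← aeval_def] at hθ; exact hθ
  have hint : IsIntegral S θ := by
    rw [← isAlgebraic_iff_isIntegral]
    exact ⟨r, hr1.ne_zero, hr0⟩
  have hdeg : (minpoly S θ).natDegree = r.natDegree := by
    rw [← minpoly.eq_of_irreducible hr1 hr0, natDegree_mul hr1.ne_zero, natDegree_C, add_zero]
    simpa using hr1.ne_zero
  obtain ⟨h1, h2⟩ := minpoly_EE S θ hint
  have heq := EE_closure_eq S {θ} {(θ : ℂ)} (by
      rintro z hz
      rw [Set.mem_singleton_iff.1 hz]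
      exact IntermediateField.mem_adjoin_simple_self _ _) (by
      rintro z hz
      rw [Set.mem_singleton_iff.1 hz, coe_mem_EE]
      exact Subfield.subset_closure (Or.inr (by simp)))
  refine ⟨Subfield.closure (S ∪ {θ}), fun z hz => Subfield.subset_closure (Or.inl hz),
    ⟨closure_union_countable _ hc _ (Set.toFinite _).countable, ?_⟩, θ,
    Subfield.subset_closure (Or.inr (by simp)), ?_⟩
  · rw [heq]
    exact PE_odd hG hP θ h1 (by rw [h2, hdeg]; exact hr2)
  · obtain ⟨g, hg⟩ := hr3
    rw [← hq, hg, Polynomial.map_mul, IsRoot, eval_mul, hθ, zero_mul]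

end Pool.Agent.Helper89.W4
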