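import Pool.Agent.Helper89.W4.T4

set_option autoImplicit false

namespace Pool.Agent.Helper89.W4

open Polynomial Module IntermediateField Pool.Agent.Helper40.W4

lemma EE_eq_of (S : Subfield ℝ) (T : Set ℝ) (F : Subfield ℂ) (h0 : EE S ≤ F)
    (h1 : ∀ x ∈ T, (x : ℂ) ∈ F) (h2 : F ≤ EE (Subfield.closure (S ∪ T))) :
    EE (Subfield.closure (S ∪ T)) = F := by
  apply le_antisymm _ h2
  apply EE_le
  · exact h0 (I_mem_EE S)
  · rw [Subfield.closure_le]
    rintro x (hx | hx)
    · exact h0 (coe_mem_EE.2 hx)
    · exact h1 x hx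

lemma adjoin_le_subfield (E : Subfield ℂ) (U : Set ℂ) (F : Subfield ℂ) (h1 : E ≤ F) (h2 : U ⊆ F) :
    (IntermediateField.adjoin E U).toSubfield ≤ F := by
  have : (IntermediateField.adjoin E U).toSubfield =
      Subfield.closure (Set.range (algebraMap E ℂ) ∪ U) := rfl
  rw [this, Subfield.closure_le]
  rintro x (⟨y, rfl⟩ | hx)
  · exact h1 y.2
  · exact h2 hx

lemma le_adjoin_subfield (E : Subfield ℂ) (U : Set ℂ) :
    E ≤ (IntermediateField.adjoin E U).toSubfield := fun z hz =>
  (IntermediateField.adjoin E U).algebraMap_mem ⟨z, hz⟩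

lemma alg_tower {E : Subfield ℂ} {x y z : ℂ} (hx : IsAlgebraic (IntermediateField.adjoin E {y}) x)
    (hz : IsAlgebraic (IntermediateField.adjoin E {x, y}) z) :
    IsAlgebraic (IntermediateField.adjoin E {y}) z := by
  have hle : IntermediateField.adjoin E {y} ≤ IntermediateField.adjoin E {x, y} :=
    IntermediateField.adjoin.mono _ _ _ (by simp)
  let _ : Algebra (IntermediateField.adjoin E {y}) (IntermediateField.adjoin E {x, y}) :=
    (IntermediateField.inclusion hle).toRingHom.toAlgebra
  have : IsScalarTower (IntermediateField.adjoin E {y}) (IntermediateField.adjoin E {x, y}) ℂ :=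
    IsScalarTower.of_algebraMap_eq fun _ => rfl
  have hall : ∀ w ∈ IntermediateField.adjoin E {x, y},
      IsAlgebraic (IntermediateField.adjoin E {y}) w := by
    intro w hw
    induction hw using IntermediateField.adjoin_induction with
    | mem w hw =>
      rcases hw with rfl | hw
      · exact hx
      · rw [Set.mem_singleton_iff.1 hw]
        exact isAlgebraic_algebraMap
          (⟨y, IntermediateField.mem_adjoin_simple_self _ y⟩ : IntermediateField.adjoin E {y})
    | algebraMap e =>
      exact isAlgebraic_algebraMap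
        (algebraMap E (IntermediateField.adjoin E {y}) e)
    | add a b _ _ ha hb => exact ha.add hb
    | inv a _ ha => exact ha.inv
    | mul a b _ _ ha hb => exact ha.mul hb
  have : Algebra.IsAlgebraic (IntermediateField.adjoin E {y})
      (IntermediateField.adjoin E {x, y}) := by
    constructor
    rintro ⟨w, hw⟩
    have := hall w hw
    exact (isAlgebraic_algebraMap_iff
      (A := ℂ) (FaithfulSMul.algebraMap_injective (IntermediateField.adjoin E {x, y}) ℂ)).1 this
  exact hz.restrictScalars _

lemma step_uni (hG : S_GCON) {a c : ℝ} {S : Subfield ℝ} (h : PS a c S) {α β : ℂ}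
    (hα : α ∈ EE S) (hβ : β ∈ EE S) (hα0 : α ≠ 0) (hβ0 : β ≠ 0) :
    ∃ S' : Subfield ℝ, S ≤ S' ∧ PS a c S' ∧ ∃ x ∈ EE S', ∃ y ∈ EE S', x ^ 2 - α * y ^ 2 = β := by
  obtain ⟨hc, hP⟩ := h
  have := hc
  have := EE_countable S
  obtain ⟨r, -, -, hr⟩ := exists_real_transcendental (EE S) (zero_lt_one)
  have hcr : Countable (IntermediateField.adjoin (EE S) {(r : ℂ)}).toSubfield :=
    closure_countable (Set.range (algebraMap (EE S) ℂ) ∪ {(r : ℂ)})
      ((Set.countable_range _).union (Set.countable_singleton _))
  obtain ⟨t, -, -, ht⟩ := exists_real_transcendental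
    (IntermediateField.adjoin (EE S) {(r : ℂ)}).toSubfield (zero_lt_one)
  have ht' : Transcendental (IntermediateField.adjoin (EE S) {(r : ℂ)}) (t : ℂ) := ht
  set y : ℂ := r + t * Complex.I with hy
  set y' : ℂ := r - t * Complex.I with hy'
  have hI : IsAlgebraic (IntermediateField.adjoin (EE S) {(r : ℂ)}) Complex.I :=
    isAlgebraic_algebraMap (⟨Complex.I, le_adjoin_subfield _ _ (I_mem_EE S)⟩ :
      IntermediateField.adjoin (EE S) {(r : ℂ)})
  have hra : IsAlgebraic (IntermediateField.adjoin (EE S) {(r : ℂ)}) (r : ℂ) :=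
    isAlgebraic_algebraMap (⟨(r : ℂ), IntermediateField.mem_adjoin_simple_self _ _⟩ :
      IntermediateField.adjoin (EE S) {(r : ℂ)})
  have hyt : Transcendental (IntermediateField.adjoin (EE S) {(r : ℂ)}) y := by
    intro hya
    apply ht'
    have : (t : ℂ) = (y - r) * Complex.I⁻¹ := by
      rw [hy]; field_simp; ring
    rw [this]
    exact (hya.sub hra).mul hI.inv
  obtain ⟨hy1, hy2⟩ := exchange hr hyt
  obtain ⟨x, hx⟩ := IsAlgClosed.exists_pow_nat_eq (α * y ^ 2 + β) (n := 2) (by norm_num)
  set x' : ℂ := (starRingEnd ℂ) x with hx'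
  have hyc : (starRingEnd ℂ) y = y' := by
    rw [hy, hy']; simp [sub_eq_add_neg]
  have hx2 : x' ^ 2 = (starRingEnd ℂ) α * y' ^ 2 + (starRingEnd ℂ) β := by
    rw [hx', ← hyc, ← map_pow, ← map_pow, ← map_mul, ← map_add, hx]
  have hcjm : ∀ z ∈ EE S, (starRingEnd ℂ) z ∈ EE S := fun z hz => (cj S ⟨z, hz⟩).2
  have hPE1 := PE_con hG hP α β x y hα hβ hα0 hβ0 hy1 hx
  have hy'1 : Transcendental (IntermediateField.adjoin (EE S) {x, y}) y' := by
    intro hcon
    apply hy2
    have hxa : IsAlgebraic (IntermediateField.adjoin (EE S) {y}) x := by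
      have hm : α * y ^ 2 + β ∈ IntermediateField.adjoin (EE S) {y} :=
        add_mem (mul_mem (le_adjoin_subfield _ _ hα)
          (pow_mem (IntermediateField.mem_adjoin_simple_self _ _) 2)) (le_adjoin_subfield _ _ hβ)
      apply IsAlgebraic.of_pow (n := 2) (by norm_num)
      rw [hx]
      exact isAlgebraic_algebraMap
        (⟨_, hm⟩ : IntermediateField.adjoin (EE S) {y})
    have h1 := alg_tower hxa hcon
    have h2 : IsAlgebraic (IntermediateField.adjoin (EE S) {y}) y :=
      isAlgebraic_algebraMap (⟨y, IntermediateField.mem_adjoin_simple_self _ _⟩ :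
        IntermediateField.adjoin (EE S) {y})
    have h3 : IsAlgebraic (IntermediateField.adjoin (EE S) {y}) (2 : ℂ) := by
      exact_mod_cast isAlgebraic_algebraMap (2 : IntermediateField.adjoin (EE S) {y})
    have : (r : ℂ) = (y + y') * 2⁻¹ := by rw [hy, hy']; ring
    rw [this]
    exact (h2.add h1).mul h3.inv
  have hPE2 := PE_con hG hPE1 ((starRingEnd ℂ) α) ((starRingEnd ℂ) β) x' y'
    (le_adjoin_subfield _ _ (hcjm α hα)) (le_adjoin_subfield _ _ (hcjm β hβ))
    (by simpa using hα0) (by simpa using hβ0) hy'1 hx2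
  set E1 := (IntermediateField.adjoin (EE S) {x, y}).toSubfield with hE1
  set F := (IntermediateField.adjoin E1 {x', y'}).toSubfield with hF
  have h0F : EE S ≤ F := (le_adjoin_subfield _ _).trans (le_adjoin_subfield _ _)
  have h1F : E1 ≤ F := le_adjoin_subfield _ _
  have hxF : x ∈ F := h1F (IntermediateField.subset_adjoin _ _ (by simp))
  have hyF : y ∈ F := h1F (IntermediateField.subset_adjoin _ _ (by simp))
  have hx'F : x' ∈ F := IntermediateField.subset_adjoin E1 _ (by simp)
  have hy'F : y' ∈ F := IntermediateField.subset_adjoin E1 _ (by simp)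
  have hIF : Complex.I ∈ F := h0F (I_mem_EE S)
  have h2F : (2 : ℂ) ∈ F := ofNat_mem F 2
  set T : Set ℝ := {x.re, x.im, r, t} with hT
  have hxS : x ∈ EE (Subfield.closure (S ∪ T)) :=
    ⟨Subfield.subset_closure (Or.inr (by simp [hT])), Subfield.subset_closure (Or.inr (by simp [hT]))⟩
  have hyS : y ∈ EE (Subfield.closure (S ∪ T)) := by
    refine ⟨?_, ?_⟩
    · have : y.re = r := by simp [hy]
      rw [this]
      exact Subfield.subset_closure (Or.inr (by simp [hT]))
    · have : y.im = t := by simp [hy]
      rw [this]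
      exact Subfield.subset_closure (Or.inr (by simp [hT]))
  have heq : EE (Subfield.closure (S ∪ T)) = F := by
    apply EE_eq_of S T F h0F
    · intro z hz
      simp only [hT, Set.mem_insert_iff, Set.mem_singleton_iff] at hz
      rcases hz with rfl | rfl | rfl | rfl
      · have : ((x.re : ℝ) : ℂ) = (x + x') / 2 := by
          rw [hx']
          have := Complex.add_conj x
          rw [this]; push_cast; ring
        rw [this]
        exact F.div_mem (F.add_mem hxF hx'F) h2F
      · have : ((x.im : ℝ) : ℂ) = (x - x') / (2 * Complex.I) := by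
          rw [hx']
          have := Complex.sub_conj x
          rw [this]; push_cast; field_simp
        rw [this]
        exact F.div_mem (F.sub_mem hxF hx'F) (F.mul_mem h2F hIF)
      · have : (z : ℂ) = (y + y') / 2 := by rw [hy, hy']; ring
        rw [this]
        exact F.div_mem (F.add_mem hyF hy'F) h2F
      · have : (z : ℂ) = (y - y') / (2 * Complex.I) := by
          rw [hy, hy']; field_simp; ring
        rw [this]
        exact F.div_mem (F.sub_mem hyF hy'F) (F.mul_mem h2F hIF)
    · have hmono : EE S ≤ EE (Subfield.closure (S ∪ T)) :=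
        EE_mono (Subfield.subset_closure.trans' Set.subset_union_left)
      have hE1' : E1 ≤ EE (Subfield.closure (S ∪ T)) := by
        apply adjoin_le_subfield _ _ _ hmono
        rintro z (rfl | hz)
        · exact hxS
        · rw [Set.mem_singleton_iff.1 hz]; exact hyS
      apply adjoin_le_subfield _ _ _ hE1'
      rintro z (rfl | hz)
      · exact (cj _ ⟨x, hxS⟩).2
      · rw [Set.mem_singleton_iff.1 hz, ← hyc]; exact (cj _ ⟨y, hyS⟩).2
  refine ⟨Subfield.closure (S ∪ T), fun z hz => Subfield.subset_closure (Or.inl hz),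
    ⟨closure_union_countable _ hc _ (Set.toFinite _).countable, ?_⟩, x, hxS, y, hyS, ?_⟩
  · rw [heq]
    exact hPE2
  · rw [hx]; ring

end Pool.Agent.Helper89.W4
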