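import Pool.Agent.Helper89.W4.T5

set_option autoImplicit false

namespace Pool.Agent.Helper89.W4

open Polynomial Module IntermediateField Pool.Agent.Helper40.W4

open scoped IntermediateField.algebraAdjoinAdjoin in
lemma base_pair : ∃ a c : ℝ, 2 < a ∧ 1 < c ∧ AlgebraicIndependent ℚ ![(a : ℂ), (c : ℂ)] := by
  have h0 : Countable (Subfield.closure (∅ : Set ℂ)) := closure_countable _ Set.countable_empty
  obtain ⟨a, ha2, -, ha⟩ := exists_real_transcendental (Subfield.closure (∅ : Set ℂ))
    (u := 2) (v := 3) (by norm_num)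
  have h1 : Countable (Subfield.closure ({(a : ℂ)} : Set ℂ)) :=
    closure_countable _ (Set.countable_singleton _)
  obtain ⟨c, hc1, -, hc⟩ := exists_real_transcendental (Subfield.closure ({(a : ℂ)} : Set ℂ))
    (u := 1) (v := 2) (by norm_num)
  refine ⟨a, c, ha2, hc1, ?_⟩
  have haq : Transcendental ℚ (a : ℂ) := by
    intro h
    exact ha (h.tower_top _)
  have hcq : Transcendental (Algebra.adjoin ℚ {(a : ℂ)}) (c : ℂ) := by
    intro h
    apply hc
    have hle : ∀ z ∈ Algebra.adjoin ℚ {(a : ℂ)}, z ∈ Subfield.closure ({(a : ℂ)} : Set ℂ) := by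
      intro z hz
      induction hz using Algebra.adjoin_induction with
      | mem x hx => exact Subfield.subset_closure hx
      | algebraMap r =>
        rw [eq_ratCast (algebraMap ℚ ℂ)]
        exact SubfieldClass.ratCast_mem _ r
      | add x y _ _ hx hy => exact add_mem hx hy
      | mul x y _ _ hx hy => exact mul_mem hx hy
    let φ : Algebra.adjoin ℚ {(a : ℂ)} →+* Subfield.closure ({(a : ℂ)} : Set ℂ) :=
      { toFun := fun z => ⟨z, hle z z.2⟩
        map_one' := rfl
        map_mul' := fun _ _ => rfl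
        map_zero' := rfl
        map_add' := fun _ _ => rfl }
    obtain ⟨p, hp0, hp⟩ := h
    refine ⟨p.map φ, ?_, ?_⟩
    · rw [Ne, Polynomial.map_eq_zero_iff]
      · exact hp0
      · intro x y hxy
        have h2 : ((φ x : Subfield.closure ({(a : ℂ)} : Set ℂ)) : ℂ) = φ y := by rw [hxy]
        exact Subtype.ext h2
    · rw [aeval_def, eval₂_map]
      exact hp
  have hne : (c : ℂ) ∉ ({(a : ℂ)} : Set ℂ) := by
    rintro h
    rw [Set.mem_singleton_iff] at h
    exact hc (isAlgebraic_algebraMap
      (⟨(c : ℂ), Subfield.subset_closure (by rw [h]; exact Set.mem_singleton _)⟩ :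
        Subfield.closure ({(a : ℂ)} : Set ℂ)))
  have h3 : AlgebraicIndepOn ℚ (id : ℂ → ℂ) {(a : ℂ)} := by
    rw [AlgebraicIndepOn, algebraicIndependent_unique_type_iff]
    exact haq
  have h4 : AlgebraicIndepOn ℚ (id : ℂ → ℂ) (insert (c : ℂ) {(a : ℂ)}) := by
    rw [AlgebraicIndepOn.insert_iff hne]
    refine ⟨h3, ?_⟩
    rw [Set.image_id]
    exact hcq
  let f : Fin 2 → (insert (c : ℂ) {(a : ℂ)} : Set ℂ) := ![⟨a, by simp⟩, ⟨c, by simp⟩]
  have hac : (a : ℂ) ≠ c := fun h => hne (by rw [h]; exact Set.mem_singleton _)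
  have hf : Function.Injective f := by
    intro i j hij
    have := congrArg Subtype.val hij
    fin_cases i <;> fin_cases j <;> simp [f] at this ⊢
    · exact hac (by exact_mod_cast this)
    · exact hac (by exact_mod_cast this.symm)
  have h5 := AlgebraicIndependent.comp h4 f hf
  convert h5 using 1
  ext i
  fin_cases i <;> simp [f]

lemma base_PS (hG : S_GBASE) {a c : ℝ} (h : AlgebraicIndependent ℚ ![(a : ℂ), (c : ℂ)]) :
    PS a c (Subfield.closure {a, c}) := by
  set S := Subfield.closure {a, c} with hS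
  have haS : a ∈ S := Subfield.subset_closure (by simp)
  have hcS : c ∈ S := Subfield.subset_closure (by simp)
  have ha : (a : ℂ) ∈ EE S := coe_mem_EE.2 haS
  have hc : (c : ℂ) ∈ EE S := coe_mem_EE.2 hcS
  refine ⟨closure_countable _ (Set.toFinite _).countable, ha, hc, ?_⟩
  refine hG (EE S) ⟨Complex.I, I_mem_EE S⟩ _ _ ?_ ?_ ?_
  · apply Subtype.ext
    simp
  · apply AlgebraicIndependent.of_comp (RingHom.toRatAlgHom (EE S).subtype)
    convert h using 1
    ext i
    fin_cases i <;> simp
  · rw [eq_top_iff]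
    set K := IntermediateField.adjoin ℚ
      ({⟨Complex.I, I_mem_EE S⟩, ⟨(a : ℂ), ha⟩, ⟨(c : ℂ), hc⟩} : Set (EE S)) with hK
    have hle : EE S ≤ K.toSubfield.map (EE S).subtype := by
      apply EE_le
      · exact ⟨⟨Complex.I, I_mem_EE S⟩, IntermediateField.subset_adjoin _ _ (by simp), rfl⟩
      · refine Subfield.closure_le.2 ?_
        rintro z (rfl | hz)
        · exact ⟨⟨(z : ℂ), ha⟩, IntermediateField.subset_adjoin _ _ (by simp), rfl⟩
        · rw [Set.mem_singleton_iff] at hz
          subst hz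
          exact ⟨⟨(z : ℂ), hc⟩, IntermediateField.subset_adjoin _ _ (by simp), rfl⟩
    intro z _
    obtain ⟨w, hw, hwz⟩ := hle z.2
    have : w = z := Subtype.ext hwz
    rw [← this]
    exact hw

end Pool.Agent.Helper89.W4
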