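import Pool.Agent.Helper89.W4.T6

set_option autoImplicit false

namespace Pool.Agent.Helper89.W4

open Polynomial Module IntermediateField Pool.Agent.Helper40.W4

/-- The tasks. -/
inductive Task where
  | sq (e : ℝ)
  | odd (p : ℝ[X])
  | uni (α β : ℂ)

/-- The coefficients of a task. -/
def Task.coef : Task → Set ℝ
  | .sq e => {e}
  | .odd p => Set.range p.coeff
  | .uni α β => {α.re, α.im, β.re, β.im}

/-- The task is solved over `R`. -/
def Task.Sol : Task → Subring ℝ → Prop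
  | .sq e, R => 0 < e → ∃ x ∈ R, ∃ y ∈ R, e = x ^ 2 + y ^ 2
  | .odd p, R => Odd p.natDegree → ∃ x ∈ R, p.IsRoot x
  | .uni α β, R => α ≠ 0 → β ≠ 0 → ∃ x y : ℂ, (x.re ∈ R ∧ x.im ∈ R) ∧ (y.re ∈ R ∧ y.im ∈ R) ∧
      x ^ 2 - α * y ^ 2 = β

lemma coef_finite (t : Task) : t.coef.Finite := by
  cases t with
  | sq e => exact Set.finite_singleton e
  | odd p =>
    refine ((p.support.image p.coeff).finite_toSet.union (Set.finite_singleton (0 : ℝ))).subset ?_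
    rintro x ⟨n, rfl⟩
    by_cases h : p.coeff n = 0
    · exact Or.inr h
    · left
      rw [Finset.mem_coe, Finset.mem_image]
      exact ⟨n, mem_support_iff.2 h, rfl⟩
  | uni α β =>
    show ({α.re, α.im, β.re, β.im} : Set ℝ).Finite
    exact Set.toFinite _

lemma Sol_mono (t : Task) (R R' : Subring ℝ) (h : R ≤ R') (hs : t.Sol R) : t.Sol R' := by
  cases t with
  | sq e =>
    intro he
    obtain ⟨x, hx, y, hy, hxy⟩ := hs he
    exact ⟨x, h hx, y, h hy, hxy⟩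
  | odd p =>
    intro hp
    obtain ⟨x, hx, hxy⟩ := hs hp
    exact ⟨x, h hx, hxy⟩
  | uni α β =>
    intro h1 h2
    obtain ⟨x, y, hx, hy, hxy⟩ := hs h1 h2
    exact ⟨x, y, ⟨h hx.1, h hx.2⟩, ⟨h hy.1, h hy.2⟩, hxy⟩

lemma poly_countable (K : Type) [Field K] [Countable K] : Countable K[X] := by
  rw [← Cardinal.mk_le_aleph0_iff]
  exact (Polynomial.cardinalMk_le_max).trans (by simp)

lemma tasks_countable (S : Subfield ℝ) (h : Countable S) :
    Countable {t : Task // t.coef ⊆ S.toSubring} := by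
  have := poly_countable S
  let f : (S ⊕ S[X]) ⊕ ((S × S) × (S × S)) → Task := fun z => match z with
    | .inl (.inl e) => .sq e
    | .inl (.inr p) => .odd (p.map (algebraMap S ℝ))
    | .inr ((a, b), (c, d)) => .uni ⟨a, b⟩ ⟨c, d⟩
  have hc : (Set.range f).Countable := Set.countable_range f
  apply Set.Countable.to_subtype
  refine hc.mono ?_
  intro t ht
  cases t with
  | sq e =>
    have he : e ∈ S := ht rfl
    exact ⟨.inl (.inl ⟨e, he⟩), rfl⟩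
  | odd p =>
    have hl : p ∈ lifts (algebraMap S ℝ) := by
      rw [lifts_iff_coeff_lifts]
      intro n
      exact ⟨⟨_, ht ⟨n, rfl⟩⟩, rfl⟩
    obtain ⟨q, hq⟩ := (mem_lifts _).1 hl
    exact ⟨.inl (.inr q), by simp only [f]; rw [hq]⟩
  | uni α β =>
    have h1 : α.re ∈ S := ht (by simp [Task.coef])
    have h2 : α.im ∈ S := ht (by simp [Task.coef])
    have h3 : β.re ∈ S := ht (by simp [Task.coef])
    have h4 : β.im ∈ S := ht (by simp [Task.coef])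
    exact ⟨.inr ((⟨_, h1⟩, ⟨_, h2⟩), (⟨_, h3⟩, ⟨_, h4⟩)), rfl⟩

/-- The chain. -/
lemma exists_chain (hCL : S_CL) (hR : S_GRAT) (hC : S_GCON) (hO : S_GODD) (hB : S_GBASE) :
    ∃ (a c : ℝ) (S : ℕ → Subfield ℝ), 2 < a ∧ 1 < c ∧ a ∈ S 0 ∧ c ∈ S 0 ∧ Monotone S ∧
      (∀ n, PS a c (S n)) ∧
      ∀ t : Task, (∀ z ∈ t.coef, ∃ n, z ∈ S n) → ∃ n, t.Sol (S n).toSubring := by
  obtain ⟨a, c, ha, hc, hac⟩ := base_pair
  have hS0 := base_PS hB hac
  set S₀ := Subfield.closure {a, c} with hS₀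
  obtain ⟨R, hR0, hmono, hPR, hsol⟩ := hCL ℝ (fun R => ∃ S : Subfield ℝ, S.toSubring = R ∧ PS a c S)
    Task Task.coef Task.Sol coef_finite Sol_mono (by
      rintro R ⟨S, rfl, hS⟩
      exact tasks_countable S hS.1) (by
      rintro R t ⟨S, rfl, hS⟩ ht
      cases t with
      | sq e =>
        by_cases he : 0 < e
        · obtain ⟨S', h1, h2, h3⟩ := step_sq hR hS (e := e) (ht rfl) he
          exact ⟨S'.toSubring, h1, ⟨S', rfl, h2⟩, fun _ => h3⟩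
        · exact ⟨S.toSubring, le_rfl, ⟨S, rfl, hS⟩, fun h => absurd h he⟩
      | odd p =>
        by_cases hp : Odd p.natDegree
        · obtain ⟨S', h1, h2, h3⟩ := step_odd hO hS (p := p) (fun n => ht ⟨n, rfl⟩) hp
          exact ⟨S'.toSubring, h1, ⟨S', rfl, h2⟩, fun _ => h3⟩
        · exact ⟨S.toSubring, le_rfl, ⟨S, rfl, hS⟩, fun h => absurd h hp⟩
      | uni α β =>
        by_cases hα : α ≠ 0
        · by_cases hβ : β ≠ 0
          · have h1 : α ∈ EE S := ⟨ht (by simp [Task.coef]), ht (by simp [Task.coef])⟩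
            have h2 : β ∈ EE S := ⟨ht (by simp [Task.coef]), ht (by simp [Task.coef])⟩
            obtain ⟨S', h1, h2, x, hx, y, hy, hxy⟩ := step_uni hC hS h1 h2 hα hβ
            exact ⟨S'.toSubring, h1, ⟨S', rfl, h2⟩, fun _ _ => ⟨x, y, hx, hy, hxy⟩⟩
          · exact ⟨S.toSubring, le_rfl, ⟨S, rfl, hS⟩, fun _ h => absurd h hβ⟩
        · exact ⟨S.toSubring, le_rfl, ⟨S, rfl, hS⟩, fun h => absurd h hα⟩)
    S₀.toSubring ⟨S₀, rfl, hS0⟩
  choose S hSR hSP using hPR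
  refine ⟨a, c, S, ha, hc, ?_, ?_, ?_, hSP, ?_⟩
  · have : a ∈ (S 0).toSubring := by
      rw [hSR 0, hR0]
      exact Subfield.subset_closure (by simp)
    exact this
  · have : c ∈ (S 0).toSubring := by
      rw [hSR 0, hR0]
      exact Subfield.subset_closure (by simp)
    exact this
  · intro m n hmn x hx
    have h1 : x ∈ (S m).toSubring := hx
    rw [hSR m] at h1
    have h2 := hmono hmn h1
    rw [← hSR n] at h2
    exact h2
  · intro t ht
    obtain ⟨n, hn⟩ := hsol t (fun z hz => by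
      obtain ⟨n, hn⟩ := ht z hz
      refine ⟨n, ?_⟩
      rw [← hSR n]
      exact hn)
    refine ⟨n, ?_⟩
    rw [hSR n]
    exact hn

/-- The polynomial is a sum of squares. -/
lemma fpoly_sq {k : Type} [Field k] [CharZero k] {a c p₁ p₂ q₁ q₂ u₁ u₂ v₁ v₂ : k}
    (ha : a - 7 / 6 = p₁ ^ 2 + p₂ ^ 2) (hc : c - 1 / 12 = q₁ ^ 2 + q₂ ^ 2)
    (hu : 1 / 6 = u₁ ^ 2 + u₂ ^ 2) (hv : 1 / 12 = v₁ ^ 2 + v₂ ^ 2) :
    ∃ (r : ℕ) (g : Fin r → k[X]), fpoly a c = ∑ i, g i ^ 2 := by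
  refine ⟨9, ![C p₁ * X ^ 3, C p₂ * X ^ 3, C q₁, C q₂, X ^ 3 + C (1 / 2) * X ^ 2,
    C u₁ * (X ^ 3 - X), C u₂ * (X ^ 3 - X), C v₁ * (X ^ 2 - 1), C v₂ * (X ^ 2 - 1)], ?_⟩
  have Ha : (C a : k[X]) = C p₁ ^ 2 + C p₂ ^ 2 + (1 + C (1 / 6)) := by
    rw [← C_1, ← C_add, ← C_pow, ← C_pow, ← C_add, ← C_add]
    congr 1
    linear_combination ha
  have Hc : (C c : k[X]) = C q₁ ^ 2 + C q₂ ^ 2 + C (1 / 12) := by
    rw [← C_pow, ← C_pow, ← C_add, ← C_add]
    congr 1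
    linear_combination hc
  have Hu : (C u₁ : k[X]) ^ 2 + C u₂ ^ 2 = C (1 / 6) := by
    rw [← C_pow, ← C_pow, ← C_add, hu]
  have Hv : (C v₁ : k[X]) ^ 2 + C v₂ ^ 2 = C (1 / 12) := by
    rw [← C_pow, ← C_pow, ← C_add, hv]
  have H2 : 2 * (C (1 / 2) : k[X]) = 1 := by
    have : (2 : k[X]) = C 2 := (map_ofNat C 2).symm
    rw [this, ← C_mul, ← C_1]
    congr 1
    norm_num
  have H3 : (C (1 / 2) : k[X]) ^ 2 - 2 * C (1 / 6) + C (1 / 12) = 0 := by
    have : (2 : k[X]) = C 2 := (map_ofNat C 2).symm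
    rw [this, ← C_mul, ← C_pow, ← C_sub, ← C_add, ← C_0]
    congr 1
    norm_num
  have H4 : (C (1 / 6) : k[X]) - 2 * C (1 / 12) = 0 := by
    have : (2 : k[X]) = C 2 := (map_ofNat C 2).symm
    rw [this, ← C_mul, ← C_sub, ← C_0]
    congr 1
    norm_num
  simp only [Fin.sum_univ_succ, Fin.sum_univ_zero, Matrix.cons_val_zero, Matrix.cons_val_succ,
    fpoly]
  linear_combination X ^ 6 * Ha + Hc - (X ^ 3 - X) ^ 2 * Hu - (X ^ 2 - 1) ^ 2 * Hv - X ^ 5 * H2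
    - X ^ 4 * H3 - X ^ 2 * H4

theorem tower_thm (hCL : S_CL) (hR : S_GRAT) (hC : S_GCON) (hO : S_GODD) (hB : S_GBASE)
    (hP : S_PT) : S_TOWER := by
  obtain ⟨a, c, S, ha2, hc1, haS, hcS, hmono, hPS, hsol⟩ := exists_chain hCL hR hC hO hB
  set k : Subfield ℝ := ⨆ n, S n with hk
  have hdir : Directed (· ≤ ·) S := hmono.directed_le
  have hmem : ∀ x : ℝ, x ∈ k ↔ ∃ n, x ∈ S n := fun x => Subfield.mem_iSup_of_directed hdir
  have hle : ∀ n, S n ≤ k := fun n x hx => (hmem x).2 ⟨n, hx⟩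
  have hak : a ∈ k := hle 0 haS
  have hck : c ∈ k := hle 0 hcS
  have hsq : ∀ e : k, 0 < (e : ℝ) → ∃ x y : k, e = x ^ 2 + y ^ 2 := by
    intro e he
    obtain ⟨n, hn⟩ := hsol (.sq e) (by
      rintro z hz
      rw [Set.mem_singleton_iff.1 hz]
      exact (hmem _).1 e.2)
    obtain ⟨x, hx, y, hy, hxy⟩ := hn he
    exact ⟨⟨x, hle n hx⟩, ⟨y, hle n hy⟩, Subtype.ext hxy⟩
  let _ : Algebra k (EE k) := (inc k).toAlgebra
  refine ⟨k, inferInstance, inferInstance, ⟨a, hak⟩, ⟨c, hck⟩, ?_, ?_, ?_, ?_, ?_, ?_, ?_,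
    EE k, inferInstance, inferInstance, ⟨Complex.I, I_mem_EE k⟩, ?_, ?_, ?_⟩
  · have h1 : (k : Set ℝ) = ⋃ n, (S n : Set ℝ) := by
      ext x
      rw [Set.mem_iUnion]
      exact hmem x
    have h2 : (k : Set ℝ).Countable := by
      rw [h1]
      exact Set.countable_iUnion fun n => Set.countable_coe_iff.1 (hPS n).1
    exact h2.to_subtype
  · intro n x hx i
    have h1 : ∑ i, ((x i : ℝ)) ^ 2 = 0 := by
      have := congrArg (fun z : k => (z : ℝ)) hx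
      simpa using this
    have h2 := (Finset.sum_eq_zero_iff_of_nonneg (fun i _ => sq_nonneg ((x i : ℝ)))).1 h1 i
      (Finset.mem_univ i)
    exact Subtype.ext (by simpa using h2)
  · rintro ⟨x, hx⟩
    obtain ⟨n, hn⟩ := (hmem _).1 x.2
    apply PE_nsq (hPS n).2 ((x : ℝ) : ℂ) (coe_mem_EE.2 hn)
    have h1 : a = (x : ℝ) * x := congrArg (fun z : k => (z : ℝ)) hx
    have h2 : (a : ℂ) = ((x : ℝ) : ℂ) * ((x : ℝ) : ℂ) := by exact_mod_cast h1
    rw [h2]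
    ring
  · rintro x ⟨y, hxy⟩
    obtain ⟨n, hn⟩ := (hmem _).1 x.2
    obtain ⟨m, hm⟩ := (hmem _).1 y.2
    have hxn := hmono (le_max_left n m) hn
    have hyn := hmono (le_max_right n m) hm
    apply PE_pt hP (hPS (max n m)).2 ((x : ℝ) : ℂ) (coe_mem_EE.2 hxn) ((y : ℝ) : ℂ)
      (coe_mem_EE.2 hyn)
    have h1 : a * (x : ℝ) ^ 6 + (x : ℝ) ^ 5 + c = (y : ℝ) * y :=
      congrArg (fun z : k => (z : ℝ)) hxy
    have h2 : (a : ℂ) * ((x : ℝ) : ℂ) ^ 6 + ((x : ℝ) : ℂ) ^ 5 + c =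
        ((y : ℝ) : ℂ) * ((y : ℝ) : ℂ) := by exact_mod_cast h1
    rw [h2]
    ring
  · exact hsq ⟨a, hak⟩ (by show 0 < a; linarith)
  · obtain ⟨p₁, p₂, hp⟩ := hsq (⟨a, hak⟩ - 7 / 6) (by
      show (0 : ℝ) < a - 7 / 6
      linarith)
    obtain ⟨q₁, q₂, hq⟩ := hsq (⟨c, hck⟩ - 1 / 12) (by
      show (0 : ℝ) < c - 1 / 12
      linarith)
    obtain ⟨u₁, u₂, hu⟩ := hsq (1 / 6) (by show (0 : ℝ) < 1 / 6; norm_num)
    obtain ⟨v₁, v₂, hv⟩ := hsq (1 / 12) (by show (0 : ℝ) < 1 / 12; norm_num)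
    exact fpoly_sq hp hq hu hv
  · intro p hp
    obtain ⟨n, hn⟩ := hsol (.odd (p.map (algebraMap k ℝ))) (by
      rintro z ⟨m, rfl⟩
      rw [coeff_map]
      exact (hmem _).1 (p.coeff m).2)
    obtain ⟨x, hx, hxp⟩ := hn (by rw [natDegree_map]; exact hp)
    refine ⟨⟨x, hle n hx⟩, ?_⟩
    have h1 : (p.map (algebraMap k ℝ)).IsRoot (algebraMap k ℝ ⟨x, hle n hx⟩) := hxp
    exact (isRoot_map_iff (algebraMap k ℝ).injective).1 h1
  · apply Subtype.ext
    simp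
  · rw [eq_top_iff]
    intro z _
    have h1 : z = algebraMap k (EE k) ⟨z.1.re, z.2.1⟩ +
        algebraMap k (EE k) ⟨z.1.im, z.2.2⟩ * ⟨Complex.I, I_mem_EE k⟩ := by
      apply Subtype.ext
      exact (Complex.re_add_im z.1).symm
    rw [h1]
    exact add_mem (IntermediateField.algebraMap_mem _ _)
      (mul_mem (IntermediateField.algebraMap_mem _ _)
        (IntermediateField.subset_adjoin _ _ (Set.mem_singleton _)))
  · intro α β hα hβ
    obtain ⟨n, hn⟩ := hsol (.uni α β) (by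
      rintro z (rfl | rfl | rfl | hz)
      · exact (hmem _).1 α.2.1
      · exact (hmem _).1 α.2.2
      · exact (hmem _).1 β.2.1
      · rw [Set.mem_singleton_iff.1 hz]
        exact (hmem _).1 β.2.2)
    obtain ⟨x, y, hx, hy, hxy⟩ := hn (by
      intro h
      exact hα (Subtype.ext h)) (by
      intro h
      exact hβ (Subtype.ext h))
    exact ⟨⟨x, hle n hx.1, hle n hx.2⟩, ⟨y, hle n hy.1, hle n hy.2⟩, Subtype.ext hxy⟩

end Pool.Agent.Helper89.W4
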